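import Pool.Agent.COSB.StmtsA
import Pool.Agent.Helper50_COS.MCH
import Pool.Agent.Helper7_PAR.Ops

/-!
# Squad COSB, row AMC: the certificates are checked in polynomial time
-/

set_option autoImplicit false

namespace Pool.Agent.COSB.H86

open Turing Computability Pool.Agent.UT.Num Pool.Agent.H2XG Pool.Agent.PAR Pool.Agent.COS

variable {m : ℕ}

theorem frameT {N : (Fin m → List K) → ℕ} {Q y Z Z' : (Fin m → List K) → Word}
    (hN : FPN m N) (hQ : FPW m Q) (hy : FPW m y) (hZ : FPW m Z) (hZ' : FPW m Z') :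
    FPB m (fun ρ => frameW (fun _ => true) (N ρ) (Q ρ) (y ρ) (Z ρ) (Z' ρ)) := by
  have hN1 := FPN.weak hN
  have hN2 := FPN.weak hN1
  have hQ1 := FPW.weak hQ
  have hQ2 := FPW.weak hQ1
  have hy1 := FPW.weak hy
  have hZ1 := FPW.weak hZ
  have hZ2 := FPW.weak hZ1
  have hY1 := FPW.weak hZ'
  have hY2 := FPW.weak hY1
  unfold frameW
  simp only [Bool.true_and]
  refine FPB.and ?_ ?_
  · refine FPB.all hN (b := fun i ρ => (!(Q ρ).getD i false || !(y ρ).getD i false)) ?_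
    exact FPB.or (FPB.not (FPW.getD hQ1 FPN.v0)) (FPB.not (FPW.getD hy1 FPN.v0))
  · refine FPB.all hN (b := fun i ρ => if (Q ρ).getD i false then
      (blW (N ρ) (Z ρ) i).getD i false && !(blW (N ρ) (Z' ρ) i).getD i false &&
      decide (∀ j < N ρ, (!decide (j < i) || decide ((blW (N ρ) (Z ρ) i).getD j false =
        (blW (N ρ) (Z' ρ) i).getD j false)) = true) &&
      decide (∀ j < N ρ, (decide (j = i) || !(Q ρ).getD j false ||
        (!(blW (N ρ) (Z ρ) i).getD j false && !(blW (N ρ) (Z' ρ) i).getD j false)) = true)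
    else decide (∀ j < N ρ, (!(blW (N ρ) (Z ρ) i).getD j false &&
      !(blW (N ρ) (Z' ρ) i).getD j false) = true)) ?_
    have hz := H50.blF hN1 hZ1 FPN.v0
    have hy' := H50.blF hN1 hY1 FPN.v0
    have hz2 := H50.blF hN2 hZ2 FPN.v1
    have hy2 := H50.blF hN2 hY2 FPN.v1
    refine FPB.ite (FPW.getD hQ1 FPN.v0) ?_ ?_
    · refine FPB.and (FPB.and (FPB.and (FPW.getD hz FPN.v0)
        (FPB.not (FPW.getD hy' FPN.v0))) ?_) ?_
      · refine FPB.all hN1 (b := fun j σ => (!decide (j < (σ 0).length) ||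
          decide ((blW (N fun i => σ i.succ) (Z fun i => σ i.succ) (σ 0).length).getD j false =
            (blW (N fun i => σ i.succ) (Z' fun i => σ i.succ) (σ 0).length).getD j false))) ?_
        refine FPB.or (FPB.not (FPB.ltN FPN.v0 FPN.v1)) ?_
        have h1 := FPW.getD hz2 FPN.v0
        have h2 := FPW.getD hy2 FPN.v0
        exact FPB.congr (FPB.or (FPB.and h1 h2) (FPB.and (FPB.not h1) (FPB.not h2))) fun σ =>
          H50.decEqBool _ _
      · refine FPB.all hN1 (b := fun j σ => (decide (j = (σ 0).length) ||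
          !(Q fun i => σ i.succ).getD j false ||
          (!(blW (N fun i => σ i.succ) (Z fun i => σ i.succ) (σ 0).length).getD j false &&
            !(blW (N fun i => σ i.succ) (Z' fun i => σ i.succ) (σ 0).length).getD j false))) ?_
        exact FPB.or (FPB.or (FPB.eqN FPN.v0 FPN.v1) (FPB.not (FPW.getD hQ2 FPN.v0)))
          (FPB.and (FPB.not (FPW.getD hz2 FPN.v0)) (FPB.not (FPW.getD hy2 FPN.v0)))
    · refine FPB.all hN1 (b := fun j σ =>
          (!(blW (N fun i => σ i.succ) (Z fun i => σ i.succ) (σ 0).length).getD j false &&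
            !(blW (N fun i => σ i.succ) (Z' fun i => σ i.succ) (σ 0).length).getD j false)) ?_
      exact FPB.and (FPB.not (FPW.getD hz2 FPN.v0)) (FPB.not (FPW.getD hy2 FPN.v0))

/-- the check of a frame with certificates -/
theorem frCF (h1 : Am1Stmt) {G : Word → Word → Word → Word → Word → Bool} (hG : U5 G)
    {X Y Z a' b F C : (Fin m → List K) → Word} {n k N l : (Fin m → List K) → ℕ}
    (hX : FPW m X) (hY : FPW m Y) (hZ : FPW m Z) (ha : FPW m a') (hb : FPW m b)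
    (hF : FPW m F) (hC : FPW m C) (hn : FPN m n) (hk : FPN m k) (hN : FPN m N) (hl : FPN m l) :
    FPB m (fun ρ => frC (gm (G (X ρ) (Y ρ) (Z ρ)) (n ρ) (k ρ) (a' ρ) (b ρ)) (N ρ) (l ρ)
      (F ρ) (C ρ)) := by
  have c2 : FPN (C := K) m (fun _ => 2) := FPN.const 2
  have c0 : FPN (C := K) m (fun _ => 0) := FPN.const 0
  have c1 : FPN (C := K) m (fun _ => 1) := FPN.const 1
  have hX1 := FPW.weak hX
  have hY1 := FPW.weak hY
  have hZ1 := FPW.weak hZ
  have ha1 := FPW.weak ha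
  have hb1 := FPW.weak hb
  have hF1 := FPW.weak hF
  have hC1 := FPW.weak hC
  have hn1 := FPN.weak hn
  have hk1 := FPN.weak hk
  have hN1 := FPN.weak hN
  have hl1 := FPN.weak hl
  have hD : FPW m (fun ρ => (F ρ).drop (2 * N ρ)) := FPW.drop hF (FPN.mul c2 hN)
  have hD' : FPW m (fun ρ => (F ρ).drop (2 * N ρ + N ρ * N ρ)) :=
    FPW.drop hF (FPN.add (FPN.mul c2 hN) (FPN.mul hN hN))
  have hE : FPW m (fun ρ => (C ρ).drop (l ρ)) := FPW.drop hC hl
  have hE' : FPW m (fun ρ => (C ρ).drop (l ρ + N ρ * l ρ)) :=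
    FPW.drop hC (FPN.add hl (FPN.mul hN hl))
  unfold frC
  refine FPB.and (FPB.and (frameT hN (H50.blF hN hF c0) (H50.blF hN hF c1) hD hD') ?_) ?_
  · exact h1.2 G hG m n k X Y Z a' b _ _ hn hk hX hY hZ ha hb (H50.blF hN hF c1)
      (FPW.take hC hl)
  · refine FPB.all hN (b := fun i ρ => if (blW (N ρ) (F ρ) 0).getD i false then
        gm (G (X ρ) (Y ρ) (Z ρ)) (n ρ) (k ρ) (a' ρ) (b ρ)
          (blW (N ρ) ((F ρ).drop (2 * N ρ)) i) (blW (l ρ) ((C ρ).drop (l ρ)) i) &&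
        gm (G (X ρ) (Y ρ) (Z ρ)) (n ρ) (k ρ) (a' ρ) (b ρ)
          (blW (N ρ) ((F ρ).drop (2 * N ρ + N ρ * N ρ)) i)
          (blW (l ρ) ((C ρ).drop (l ρ + N ρ * l ρ)) i)
      else decide (blW (l ρ) ((C ρ).drop (l ρ)) i = List.replicate (l ρ) false) &&
        decide (blW (l ρ) ((C ρ).drop (l ρ + N ρ * l ρ)) i = List.replicate (l ρ) false)) ?_
    have e1 := H50.blF hl1 (FPW.weak hE) FPN.v0
    have e2 := H50.blF hl1 (FPW.weak hE') FPN.v0
    refine FPB.ite (FPW.getD (FPW.weak (H50.blF hN hF c0)) FPN.v0) ?_ ?_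
    · exact FPB.and
        (h1.2 G hG (m + 1) _ _ _ _ _ _ _ _ _ hn1 hk1 hX1 hY1 hZ1 ha1 hb1
          (H50.blF hN1 (FPW.weak hD) FPN.v0) e1)
        (h1.2 G hG (m + 1) _ _ _ _ _ _ _ _ _ hn1 hk1 hX1 hY1 hZ1 ha1 hb1
          (H50.blF hN1 (FPW.weak hD') FPN.v0) e2)
    · exact FPB.and (FPW.eq e1 (FPW.rep hl1 false)) (FPW.eq e2 (FPW.rep hl1 false))

/-- **AMC** -/
theorem amc (h1 : Am1Stmt) : AmcStmt := by
  intro G hG m X Y Z c n k l hX hY hZ hc hn hk hq
  have c2 : FPN (C := K) m (fun _ => 2) := FPN.const 2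
  have hnn : FPN m (fun ρ => n ρ * n ρ) := FPN.mul hn hn
  have hN : FPN m (fun ρ => k ρ * (n ρ * n ρ)) := FPN.mul hk hnn
  have hh : FPN m (fun ρ => hl (n ρ) (k ρ)) := FPN.add hnn (FPN.mul hnn hk)
  have hfl : FPN m (fun ρ => fl (k ρ * (n ρ * n ρ))) :=
    FPN.add (FPN.mul c2 hN) (FPN.mul c2 (FPN.mul hN hN))
  have t1 := FPW.take hc hh
  have d1 := FPW.drop hc hh
  have t2 := FPW.take d1 hh
  have d2 := FPW.drop d1 hh
  unfold valA
  exact FPB.and (h1.1 m n k _ hn hk t1) (FPB.and (h1.1 m n k _ hn hk t2)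
    (frCF h1 hG hX hY hZ (FPW.take t2 hnn) (FPW.drop t1 hnn) (FPW.take d2 hfl)
      (FPW.drop d2 hfl) hn hk hN hq))

end Pool.Agent.COSB.H86
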